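import Mathlib

set_option autoImplicit false
open Filter Topology Set WeakDual BoundedContinuousFunction

namespace Pool.Agent.H.MP_4998f1_an

abbrev M := Circle × Icc (-2 : ℝ) 2
abbrev X := M →ᵇ ℂ

noncomputable def wp : C(ℝ, ℝ) := ⟨fun t => max (t - 1) 0, by fun_prop⟩
noncomputable def wm : C(ℝ, ℝ) := ⟨fun t => max (-t - 1) 0, by fun_prop⟩

noncomputable def rot (θ : C(ℝ, ℝ)) : C(M, M) :=
  ⟨fun x => (x.1 * Circle.exp (θ x.2), x.2), by fun_prop⟩

noncomputable def R (θ : C(ℝ, ℝ)) : X →L[ℂ] X := compContinuousCLM ℂ ℂ (rot θ)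
noncomputable def ml (f : X) : X →L[ℂ] X := ContinuousLinearMap.mul ℂ X f

@[simp] lemma R_apply (θ : C(ℝ, ℝ)) (g : X) (x : M) :
    R θ g x = g (x.1 * Circle.exp (θ x.2), x.2) := rfl
@[simp] lemma ml_apply (f g : X) : ml f g = f * g := rfl
lemma norm_ml (f : X) : ‖ml f‖ = ‖f‖ := ContinuousLinearMap.opNorm_mul_apply ℂ X f

noncomputable def Ex : X := mkOfCompact ⟨fun x => ((Real.exp x.2 : ℝ) : ℂ), by fun_prop⟩
noncomputable def Z : X := mkOfCompact ⟨fun x => (x.1 : ℂ), by fun_prop⟩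
noncomputable def Zi : X := mkOfCompact ⟨fun x => ((x.1⁻¹ : Circle) : ℂ), by fun_prop⟩
noncomputable def B : X := mkOfCompact ⟨fun x => (((1 + Real.exp x.2)⁻¹ : ℝ) : ℂ),
  Complex.continuous_ofReal.comp (Continuous.inv₀ (by fun_prop) fun x => by positivity)⟩
noncomputable def W : X := mkOfCompact ⟨fun x => (((wp + wm) x.2 : ℝ) : ℂ), by fun_prop⟩

noncomputable def U : (X →L[ℂ] X)ˣ where
  val := ml Zi * R (wp + wm)
  inv := R (-(wp + wm)) * ml Z
  val_inv := by ext g x; simp [Z, Zi, -Circle.coe_exp, mul_assoc, ← Circle.exp_add]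
  inv_val := by ext g x; simp [Z, Zi, -Circle.coe_exp, mul_assoc, ← Circle.exp_add]

lemma conj1 (f : X) : U.val * ml f * U.inv = ml (R (wp + wm) f) := by
  ext g x; simp [U, Z, Zi, -Circle.coe_exp, mul_assoc, ← Circle.exp_add]; field_simp

lemma conj2 (f : X) : U.inv * ml f * U.val = ml (R (-(wp + wm)) f) := by
  ext g x; simp [U, Z, Zi, -Circle.coe_exp, mul_assoc, ← Circle.exp_add]; field_simp

lemma conjn (n : ℕ) (f : X) : (U ^ n).val * ml f * (U ^ n).inv = ml (R (n • (wp + wm)) f) := by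
  induction n with
  | zero => ext g x; simp
  | succ n ih =>
    have : (U ^ (n + 1)).val * ml f * (U ^ (n + 1)).inv =
        U.val * ((U ^ n).val * ml f * (U ^ n).inv) * U.inv := by
      simp only [pow_succ', Units.inv_eq_val_inv, mul_inv_rev, Units.val_mul, mul_assoc]
    rw [this, ih, conj1]
    ext g x
    simp [-Circle.coe_exp, mul_assoc, ← Circle.exp_add, add_mul, add_comm, add_assoc, add_left_comm]

lemma norm_R (θ : C(ℝ, ℝ)) : ‖R θ‖ ≤ 1 :=
  ContinuousLinearMap.opNorm_le_bound _ zero_le_one fun g => by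
    rw [one_mul, BoundedContinuousFunction.norm_le (norm_nonneg _)]
    exact fun x => g.norm_coe_le_norm _

lemma specU : spectrum ℂ U.val ⊆ Metric.sphere (0 : ℂ) 1 := by
  have hZ : ‖ml Z‖ ≤ 1 := by
    rw [norm_ml, BoundedContinuousFunction.norm_le zero_le_one]; intro x; simp [Z]
  have hZi : ‖ml Zi‖ ≤ 1 := by
    rw [norm_ml, BoundedContinuousFunction.norm_le zero_le_one]; intro x; simp [Zi]
  have h1 : ‖U.val‖ ≤ 1 := (norm_mul_le (ml Zi) (R (wp + wm))).trans
    (mul_le_one₀ hZi (norm_nonneg _) (norm_R _))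
  have h2 : ‖(U⁻¹).val‖ ≤ 1 := (norm_mul_le (R (-(wp + wm))) (ml Z)).trans
    (mul_le_one₀ (norm_R _) (norm_nonneg _) hZ)
  intro z hz
  have k : ∀ (T : X →L[ℂ] X) (z : ℂ), z ∈ spectrum ℂ T → ‖z‖ ≤ ‖T‖ := fun T z h =>
    (spectrum.norm_le_norm_mul_of_mem (A := X →L[ℂ] X) h).trans
      (mul_le_of_le_one_right (norm_nonneg T) ContinuousLinearMap.norm_id_le)
  have h3 := (k _ _ hz).trans h1
  have h0 := spectrum.ne_zero_of_mem_of_unit hz
  have h4 := (k _ _ (spectrum.inv₀_mem_inv_iff.2 hz)).trans h2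
  rw [norm_inv, inv_le_one₀ (norm_pos_iff.2 h0)] at h4
  simpa using le_antisymm h3 h4

lemma unit1 : IsUnit (1 + ml (Ex * Z) * U.val) := by
  have e : 1 + ml (Ex * Z) * U.val = R wp * ml (1 + Ex) *
      (1 - -(ml B * (R (-wp) - 1) + ml (Ex * B) * (R wm - 1))) := by
    ext g x
    have : (1 + Complex.exp x.2) ≠ 0 := by
      have : (0 : ℝ) < 1 + Real.exp x.2 := by positivity
      exact_mod_cast this.ne'
    simp [U, Z, Zi, B, Ex, -Circle.coe_exp, mul_assoc]
    field_simp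
    ring
  rw [e]
  refine (IsUnit.mul ?_ ?_).mul (isUnit_one_sub_of_norm_lt_one (R := X →L[ℂ] X) ?_)
  · refine ⟨⟨R wp, R (-wp), ?_, ?_⟩, rfl⟩ <;> ext g x <;> simp [-Circle.coe_exp]
  · refine ⟨⟨ml (1 + Ex), ml B, ?_, ?_⟩, rfl⟩ <;> ext g x
    all_goals
      have : (1 + Complex.exp x.2) ≠ 0 := by
        have : (0 : ℝ) < 1 + Real.exp x.2 := by positivity
        exact_mod_cast this.ne'
      simp [B, Ex]
      field_simp
  · rw [norm_neg]
    refine lt_of_le_of_lt (ContinuousLinearMap.opNorm_le_bound _ (M := 2 / 3) (by norm_num)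
      fun g => ?_) (by norm_num)
    rw [BoundedContinuousFunction.norm_le (by positivity)]
    intro x
    have hd : ∀ y, ‖g y - g x‖ ≤ 2 * ‖g‖ := fun y =>
      (norm_sub_le _ _).trans (by linarith [g.norm_coe_le_norm x, g.norm_coe_le_norm y])
    have hp : (0 : ℝ) < 1 + Real.exp x.2 := by positivity
    have e : (ml B * (R (-wp) - 1) + ml (Ex * B) * (R wm - 1)) g x =
        B x * (g (x.1 * Circle.exp (-max ((x.2 : ℝ) - 1) 0), x.2) - g x) +
      Ex x * B x * (g (x.1 * Circle.exp (max (-(x.2 : ℝ) - 1) 0), x.2) - g x) := by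
      simp [wp, wm, -Circle.exp_neg]
    rw [e]
    have hB : ‖B x‖ = (1 + Real.exp x.2)⁻¹ := by
      change ‖(((1 + Real.exp x.2)⁻¹ : ℝ) : ℂ)‖ = _
      rw [Complex.norm_real, Real.norm_of_nonneg (by positivity)]
    have hE : ‖Ex x‖ = Real.exp x.2 := by
      change ‖((Real.exp x.2 : ℝ) : ℂ)‖ = _
      rw [Complex.norm_real, Real.norm_of_nonneg (by positivity)]
    rcases le_total 1 (x.2 : ℝ) with h | h
    · rw [max_eq_right (show -(x.2 : ℝ) - 1 ≤ 0 by linarith), Circle.exp_zero, mul_one, sub_self,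
        mul_zero, add_zero, norm_mul, hB]
      have : (1 + Real.exp x.2)⁻¹ ≤ 1 / 3 := by
        rw [inv_le_comm₀ hp (by norm_num)]; linarith [Real.add_one_le_exp (x.2 : ℝ)]
      exact (mul_le_mul this (hd _) (norm_nonneg _) (by norm_num)).trans_eq (by ring)
    · rw [max_eq_right (show (x.2 : ℝ) - 1 ≤ 0 by linarith), neg_zero, Circle.exp_zero, mul_one,
        sub_self, mul_zero, zero_add]
      rcases le_total (-1) (x.2 : ℝ) with h | h
      · rw [max_eq_right (show -(x.2 : ℝ) - 1 ≤ 0 by linarith), Circle.exp_zero, mul_one, sub_self,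
          mul_zero, norm_zero]
        positivity
      · rw [norm_mul, norm_mul, hB, hE]
        have : Real.exp x.2 * (1 + Real.exp x.2)⁻¹ ≤ 1 / 3 := by
          rw [← div_eq_mul_inv, div_le_iff₀ hp]
          have h1 := Real.add_one_le_exp (-x.2 : ℝ)
          have h2 : Real.exp x.2 * Real.exp (-x.2) = 1 := by rw [← Real.exp_add]; simp
          nlinarith [Real.exp_pos (x.2 : ℝ)]
        exact (mul_le_mul this (hd _) (norm_nonneg _) (by norm_num)).trans_eq (by ring)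

noncomputable def pt (s : ℂ) : M := (Circle.exp s.im, projIcc (-2) 2 (by norm_num) s.re)

lemma pt_cont : Continuous pt :=
  (Circle.exp.continuous.comp Complex.continuous_im).prodMk
    (continuous_projIcc.comp Complex.continuous_re)

lemma pt_snd {s : ℂ} (h1 : -1 ≤ s.re) (h2 : s.re ≤ 1) : ((pt s).2 : ℝ) = s.re := by
  unfold pt
  rw [projIcc_of_mem _ ⟨by linarith, by linarith⟩]

def Hol (f : X) : Prop := DifferentiableOn ℂ (fun s => f (pt s)) (Complex.re ⁻¹' Ioo (-1) 1)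

lemma Hol.of_zero {f : X} (h : ∀ x : M, |(x.2 : ℝ)| < 1 → f x = 0) : Hol f :=
  (differentiableOn_const 0).congr fun s hs => h _ (by
    rw [pt_snd hs.1.le hs.2.le]; exact abs_lt.2 hs)

lemma w_eq (t : ℝ) : (wp + wm) t = max (|t| - 1) 0 := by
  change max (t - 1) 0 + max (-t - 1) 0 = _
  simp only [max_def, abs]
  split_ifs <;> linarith

lemma Hol.rot {f : X} (h : Hol f) (θ : C(ℝ, ℝ)) (hθ : ∀ t, |t| < 1 → θ t = 0) : Hol (R θ f) :=
  DifferentiableOn.congr h fun s hs => by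
    rw [R_apply, hθ _ (by rw [pt_snd hs.1.le hs.2.le]; exact abs_lt.2 hs), Circle.exp_zero, mul_one]

lemma hol_a : Hol (Ex * Z) :=
  Complex.differentiable_exp.differentiableOn.congr fun s hs => by
    change ((Real.exp (pt s).2 : ℝ) : ℂ) * (Circle.exp s.im : ℂ) = _
    rw [pt_snd hs.1.le hs.2.le, Circle.coe_exp, Complex.ofReal_exp, ← Complex.exp_add,
      Complex.re_add_im]

noncomputable def A : Subalgebra ℂ (X →L[ℂ] X) where
  carrier := {T | Hol (T 1) ∧ T = ml (T 1)}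
  mul_mem' {S T} hS hT := by
    have : (S * T) 1 = S 1 * T 1 := by
      change S (T 1) = _
      rw [hS.2]; simp
    refine ⟨by rw [this]; exact DifferentiableOn.mul hS.1 hT.1, ?_⟩
    rw [this]
    conv_lhs => rw [hS.2, hT.2]
    ext g x; simp [mul_assoc]
  add_mem' {S T} hS hT := by
    refine ⟨DifferentiableOn.add hS.1 hT.1, ?_⟩
    conv_lhs => rw [hS.2, hT.2]
    ext g x; simp [add_mul]
  algebraMap_mem' c := by
    refine ⟨(differentiableOn_const c).congr fun s _ => by simp, ?_⟩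
    ext g x; simp

lemma ml_mem {f : X} (h : Hol f) : ml f ∈ A := ⟨by simpa using h, by simp⟩

lemma A_closed : IsClosed (A : Set (X →L[ℂ] X)) := by
  have h1 : IsClosed {f : X | Hol f} := by
    refine isClosed_of_closure_subset fun f hf => ?_
    obtain ⟨F, hF, hl⟩ := mem_closure_iff_seq_limit.1 hf
    have := (BoundedContinuousFunction.tendsto_iff_tendstoUniformly.1 hl).comp pt
    exact this.tendstoLocallyUniformly.tendstoLocallyUniformlyOn.differentiableOn
      (Eventually.of_forall hF) (isOpen_Ioo.preimage Complex.continuous_re)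
  have hc : Continuous fun T : X →L[ℂ] X => T 1 := by fun_prop
  exact (h1.preimage hc).inter
    (isClosed_eq continuous_id ((ContinuousLinearMap.mul ℂ X).continuous.comp hc))

instance : CompleteSpace A := A_closed.completeSpace_coe

noncomputable def ev (x : M) : characterSpace ℂ A :=
  (CharacterSpace.equivAlgHom (𝕜 := ℂ) (A := A)).symm
    { toFun (T : A) := T.1 1 x
      map_one' := rfl
      map_mul' S T := by
        change S.1 (T.1 1) x = _
        rw [S.2.2]; simp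
      map_zero' := rfl
      map_add' _ _ := rfl
      commutes' c := by simp }

lemma ev_apply (x : M) (T : A) : ev x T = T.1 1 x := rfl

lemma ev_cont : Continuous ev :=
  Continuous.subtype_mk (WeakDual.continuous_of_continuous_eval fun T => (T.1 1).continuous) _

lemma char_le (ψ : characterSpace ℂ A) (T : A) : ‖ψ T‖ ≤ ‖T.1 1‖ := by
  refine (AlgHom.norm_apply_le_self_mul_norm_one ψ T).trans ?_
  refine (mul_le_of_le_one_right (norm_nonneg _) ContinuousLinearMap.norm_id_le).trans_eq ?_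
  change ‖T.1‖ = _
  rw [← norm_ml, ← T.2.2]

lemma char_sub (ψ : characterSpace ℂ A) (S T : A) : ψ (S - T) = ψ S - ψ T :=
  map_sub (CharacterSpace.toAlgHom ψ) S T

def Bd : Set (Set (characterSpace ℂ A)) :=
  {K | IsClosed K ∧ ∀ a : A, ∃ χ ∈ K, ∀ ψ : characterSpace ℂ A, ‖ψ a‖ ≤ ‖χ a‖}

lemma bd1 : ev '' {x | 1 ≤ |(x.2 : ℝ)|} ∈ Bd := by
  have hc : IsCompact {x : M | 1 ≤ |(x.2 : ℝ)|} :=
    (isClosed_le continuous_const (by fun_prop)).isCompact
  refine ⟨(hc.image ev_cont).isClosed, fun T => ?_⟩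
  obtain ⟨x, hx, hm⟩ := hc.exists_isMaxOn (f := fun x => ‖T.1 1 x‖)
    ⟨(1, ⟨1, by norm_num, by norm_num⟩), by simp⟩ (by fun_prop)
  refine ⟨ev x, mem_image_of_mem _ hx, fun ψ => (char_le ψ T).trans ?_⟩
  rw [BoundedContinuousFunction.norm_le (norm_nonneg _), ev_apply]
  intro y
  rcases le_total 1 |(y.2 : ℝ)| with h | h
  · exact hm h
  have h' := abs_le.1 h
  have hy : y = pt (⟨y.2, Complex.arg y.1⟩ : ℂ) := by
    refine Prod.ext (Circle.exp_arg _).symm (Subtype.ext ?_)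
    rw [pt_snd h'.1 h'.2]
  rw [hy]
  refine PhragmenLindelof.vertical_strip (f := fun s => T.1 1 (pt s)) (a := -1) (b := 1)
    ⟨T.2.1, ((T.1 1).continuous.comp pt_cont).continuousOn⟩ ⟨0, by positivity, 0, ?_⟩
    (fun z hz => hm ?_) (fun z hz => hm ?_) h'.1 h'.2
  · refine Asymptotics.IsBigO.of_bound ‖T.1 1‖ (Eventually.of_forall fun z => ?_)
    simpa using (T.1 1).norm_coe_le_norm _
  · change 1 ≤ |((pt z).2 : ℝ)|
    rw [pt_snd hz.ge (by linarith), hz]; simp
  · change 1 ≤ |((pt z).2 : ℝ)|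
    rw [pt_snd (by linarith) hz.le, hz]; simp

lemma peak {K : Set (characterSpace ℂ A)} (hK : K ∈ Bd) (p : M) (hp : 1 < |(p.2 : ℝ)|) :
    ev p ∈ K := by
  have h : ∀ r : ℝ, ∃ χ ∈ K, 0 < r → r ≤ |(p.2 : ℝ)| - 1 → ∀ T : A, ∀ ε, 0 ≤ ε →
      (∀ x, dist x p < r → ‖T.1 1 x - T.1 1 p‖ ≤ ε) → ‖χ T - T.1 1 p‖ ≤ ε := by
    intro r
    by_cases hr : r ≤ |(p.2 : ℝ)| - 1 ∧ 0 < r
    swap
    · obtain ⟨χ, h, _⟩ := hK.2 0
      exact ⟨χ, h, fun h1 h2 => absurd ⟨h2, h1⟩ hr⟩
    let f : X := mkOfCompact ⟨fun x => ((max (1 - dist x p / r) 0 : ℝ) : ℂ), by fun_prop⟩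
    have f0 : ∀ x, r ≤ dist x p → f x = 0 := fun x hx => by
      change ((max (1 - dist x p / r) 0 : ℝ) : ℂ) = 0
      rw [max_eq_right (by rw [sub_nonpos, le_div_iff₀ hr.2]; linarith)]; simp
    have f1 : ∀ x, ‖f x‖ ≤ 1 := fun x => by
      change ‖((max (1 - dist x p / r) 0 : ℝ) : ℂ)‖ ≤ 1
      rw [Complex.norm_real, Real.norm_of_nonneg (le_max_right _ _)]
      exact max_le (by linarith [div_nonneg (dist_nonneg (x := x) (y := p)) hr.2.le]) zero_le_one
    have hf : Hol f := Hol.of_zero fun x hx => f0 x (by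
      have h1 : dist x.2 p.2 ≤ dist x p := by rw [Prod.dist_eq]; exact le_max_right _ _
      rw [Subtype.dist_eq, Real.dist_eq, abs_sub_comm] at h1
      linarith [abs_sub_abs_le_abs_sub (p.2 : ℝ) x.2, hr.1])
    obtain ⟨χ, hχ, h1⟩ := hK.2 ⟨ml f, ml_mem hf⟩
    refine ⟨χ, hχ, fun _ _ T ε hε hT => ?_⟩
    have h2 := h1 (ev p)
    have h3 := char_le χ ((T - algebraMap ℂ A (T.1 1 p)) * ⟨ml f, ml_mem hf⟩)
    rw [map_mul, char_sub, AlgHomClass.commutes, norm_mul] at h3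
    have h4 : ‖ev p ⟨ml f, ml_mem hf⟩‖ = 1 := by simp [ev_apply, f]
    have h5 : ‖((T - algebraMap ℂ A (T.1 1 p)) * ⟨ml f, ml_mem hf⟩ : A).1 1‖ ≤ ε := by
      rw [BoundedContinuousFunction.norm_le hε]
      intro x
      rw [← ev_apply, map_mul, char_sub, AlgHomClass.commutes, norm_mul, ev_apply, ev_apply]
      simp only [ml_apply, mul_one, Algebra.algebraMap_self, RingHom.id_apply]
      rcases le_or_gt r (dist x p) with h | h
      · rw [f0 x h]; simpa using hε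
      · exact (mul_le_mul (hT x h) (f1 x) (norm_nonneg _) hε).trans_eq (mul_one _)
    rw [h4] at h2
    exact (le_mul_of_one_le_right (norm_nonneg _) h2).trans (h3.trans h5)
  choose χ hχ h using h
  refine hK.1.mem_of_tendsto (b := 𝓝[>] (0 : ℝ)) (f := χ) ?_ (Eventually.of_forall hχ)
  rw [tendsto_subtype_rng, tendsto_iff_forall_eval_tendsto_topDualPairing]
  intro T
  rw [Metric.tendsto_nhds]
  intro ε hε
  obtain ⟨δ, hδ, h1⟩ := Metric.continuous_iff.1 (T.1 1).continuous p (ε / 2) (by positivity)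
  filter_upwards [Ioo_mem_nhdsGT (lt_min hδ (sub_pos.2 hp))] with r hr
  have := h r hr.1 (hr.2.le.trans (min_le_right _ _)) T (ε / 2) (by positivity) fun x hx => by
    rw [← dist_eq_norm]; exact (h1 x (hx.trans (hr.2.trans_le (min_le_left _ _)))).le
  rw [dist_eq_norm]
  exact this.trans_lt (by linarith)

lemma hol_W : Hol W := Hol.of_zero fun x hx => by
  change (((wp + wm) x.2 : ℝ) : ℂ) = 0
  rw [w_eq, max_eq_right (by linarith)]; simp

lemma dens (c : ℝ) : Dense {x : ⋂₀ Bd | x.1 ⟨ml W, ml_mem hol_W⟩ ≠ c} := by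
  rintro ⟨χ, hχ⟩
  obtain ⟨x, hx, rfl⟩ := hχ _ bd1
  have hcl : x ∈ closure {y : M | 1 < |(y.2 : ℝ)| ∧ |(y.2 : ℝ)| - 1 ≠ c} := by
    rw [Metric.mem_closure_iff]
    intro ε hε
    have h2 : |(x.2 : ℝ)| ≤ 2 := abs_le.2 x.2.2
    have h1 : 1 ≤ |(x.2 : ℝ)| := hx
    obtain ⟨r, hr, h3⟩ := (Ioo_infinite (show max 1 (|(x.2 : ℝ)| - ε) < min 2 (|(x.2 : ℝ)| + ε) by
      simp only [max_lt_iff, lt_min_iff]
      refine ⟨⟨?_, ?_⟩, ?_, ?_⟩ <;> linarith)).exists_notMem_finite (finite_singleton (c + 1))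
    simp only [mem_Ioo, max_lt_iff, lt_min_iff, mem_singleton_iff] at hr h3
    have h4 : r - 1 ≠ c := fun h => h3 (by linarith)
    rcases le_total 0 (x.2 : ℝ) with h | h
    · rw [abs_of_nonneg h] at hr
      refine ⟨(x.1, ⟨r, by linarith, by linarith⟩), ?_, ?_⟩
      · change 1 < |r| ∧ |r| - 1 ≠ c
        rw [abs_of_pos (by linarith)]; exact ⟨hr.1.1, h4⟩
      · rw [Prod.dist_eq, dist_self, Subtype.dist_eq, Real.dist_eq]
        exact max_lt hε (abs_lt.2 ⟨by linarith, by linarith⟩)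
    · rw [abs_of_nonpos h] at hr
      refine ⟨(x.1, ⟨-r, by linarith, by linarith⟩), ?_, ?_⟩
      · change 1 < |-r| ∧ |-r| - 1 ≠ c
        rw [abs_neg, abs_of_pos (by linarith)]; exact ⟨hr.1.1, h4⟩
      · rw [Prod.dist_eq, dist_self, Subtype.dist_eq, Real.dist_eq]
        exact max_lt hε (abs_lt.2 ⟨by linarith, by linarith⟩)
  rw [closure_subtype]
  have := map_mem_closure ev_cont hcl (mapsTo_image ev _)
  refine closure_mono ?_ this
  rintro _ ⟨y, hy, rfl⟩
  refine ⟨⟨ev y, fun K hK => peak hK y hy.1⟩, ?_, rfl⟩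
  change (W * 1) y ≠ c
  rw [mul_one]
  change (((wp + wm) y.2 : ℝ) : ℂ) ≠ c
  rw [w_eq, max_eq_left (by linarith [hy.1])]
  exact_mod_cast hy.2

lemma meagre : IsMeagre {x : ⋂₀ Bd | ∃ n : ℕ, 0 < n ∧
    ∀ (a : X →L[ℂ] X) (ha : a ∈ A) (b : X →L[ℂ] X) (hb : b ∈ A),
      b = (U ^ n).val * a * (U ^ n).inv → x.1 (⟨b, hb⟩ : A) = x.1 (⟨a, ha⟩ : A)} := by
  have h : (⋂ q : ℚ, {x : ⋂₀ Bd | x.1 ⟨ml W, ml_mem hol_W⟩ ≠ ((q * Real.pi : ℝ) : ℂ)}) ∈
      residual (⋂₀ Bd) := by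
    refine countable_iInter_mem.2 fun q => residual_of_dense_open ?_ (dens _)
    exact isOpen_ne_fun ((WeakDual.eval_continuous _).comp
      (continuous_subtype_val.comp continuous_subtype_val)) continuous_const
  refine mem_of_superset h ?_
  rintro ⟨χ, hχ⟩ h1 ⟨n, hn, h2⟩
  obtain ⟨x, -, rfl⟩ := hχ _ bd1
  have h3 := h2 _ (ml_mem hol_a) _ (ml_mem (hol_a.rot (n • (wp + wm)) fun t ht => by
    rw [ContinuousMap.nsmul_apply, w_eq, max_eq_right (by linarith), smul_zero])) (conjn n _).symm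
  have h4 : Circle.exp (n * (wp + wm) x.2) = Circle.exp 0 := by
    simp only [ev_apply, ml_apply, mul_one, R_apply] at h3
    simp [Ex, Z, -Circle.coe_exp] at h3
    refine Circle.ext ?_
    simpa [-Circle.coe_exp, mul_pow] using h3
  obtain ⟨m, hm⟩ := Circle.exp_eq_exp.1 h4
  refine mem_iInter.1 h1 (2 * m / n) ?_
  change (W * 1) x = _
  rw [mul_one]
  change (((wp + wm) x.2 : ℝ) : ℂ) = _
  congr 1
  have : (n : ℝ) ≠ 0 := by positivity
  generalize (wp + wm) x.2 = y at hm ⊢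
  push_cast
  field_simp
  linarith

end Pool.Agent.H.MP_4998f1_an
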